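import Pool.Agent.D0H64.MX.Stm

/-! CMP: the discriminant of a compositum. -/

set_option autoImplicit false

open NumberField

namespace Pool.Agent.D0H18.MX

open Pool.Agent.TH444.ML Pool.Agent.D0H64.MX

/-- the bound for three number fields -/
theorem aux (hC : S_CMI) (L E E' : Type) [Field L] [NumberField L] [Field E] [NumberField E]
    [Field E'] [NumberField E'] [Algebra E L] [Algebra E' L]
    (hgen : ∀ F : IntermediateField ℚ L, (∀ x : E, algebraMap E L x ∈ F) →
      (∀ x : E', algebraMap E' L x ∈ F) → F = ⊤) :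
    (discr L).natAbs ≤ (discr E).natAbs ^ Module.finrank E L *
      (discr E').natAbs ^ Module.finrank E' L := by
  let _ : Algebra (FractionRing (𝓞 E')) (FractionRing (𝓞 L)) := FractionRing.liftAlgebra _ _
  have h1 := natAbs_discr_eq_absNorm_differentIdeal_mul_natAbs_discr_pow E (𝓞 E) L (𝓞 L)
  have h2 := Ideal.absNorm_dvd_absNorm_of_le (hC L E E' hgen)
  rw [Ideal.absNorm_algebraMap, absNorm_differentIdeal E',
    ← IsFractionRing.finrank_eq (𝓞 E') E' (𝓞 L) L] at h2
  have h3 : 0 < (discr E').natAbs ^ Module.finrank E' L :=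
    pow_pos (Int.natAbs_pos.2 (discr_ne_zero E')) _
  rw [h1, mul_comm]
  exact Nat.mul_le_mul_left _ (Nat.le_of_dvd h3 h2)

theorem dsc_eq {K Ω : Type} [Field K] [Field Ω] [Algebra K Ω] (M : IntermediateField K Ω)
    [h : NumberField M] : dsc M = ((discr M).natAbs : ℝ) := by
  unfold dsc
  rw [dif_pos h]
  rw [Nat.cast_natAbs]

theorem fr (K E L : Type) [Field K] [Field E] [Field L] [Algebra K E] [Algebra E L] [Algebra K L]
    [IsScalarTower K E L] [FiniteDimensional K E] :
    Module.finrank K L / Module.finrank K E = Module.finrank E L := by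
  rw [← Module.finrank_mul_finrank K E L]
  exact Nat.mul_div_cancel_left _ Module.finrank_pos

theorem t_CMP (hC : S_CMI) : S_CMP := by
  intro K Ω _ _ _ _ E E' _ _
  have hE : NumberField E := NumberField.of_module_finite K E
  have hE' : NumberField E' := NumberField.of_module_finite K E'
  have hfin : FiniteDimensional K (E ⊔ E' : IntermediateField K Ω) := inferInstance
  have hL : NumberField (E ⊔ E' : IntermediateField K Ω) :=
    NumberField.of_module_finite K (E ⊔ E' : IntermediateField K Ω)
  let a1 : Algebra E (E ⊔ E' : IntermediateField K Ω) :=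
    (IntermediateField.inclusion (le_sup_left : E ≤ E ⊔ E')).toRingHom.toAlgebra
  let a2 : Algebra E' (E ⊔ E' : IntermediateField K Ω) :=
    (IntermediateField.inclusion (le_sup_right : E' ≤ E ⊔ E')).toRingHom.toAlgebra
  have t1 : IsScalarTower K E (E ⊔ E' : IntermediateField K Ω) := IsScalarTower.of_algebraMap_eq fun x => rfl
  have t2 : IsScalarTower K E' (E ⊔ E' : IntermediateField K Ω) := IsScalarTower.of_algebraMap_eq fun x => rfl
  have e1 := fr K E (E ⊔ E' : IntermediateField K Ω)
  have e2 := fr K E' (E ⊔ E' : IntermediateField K Ω)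
  rw [e1, e2, dsc_eq, dsc_eq, dsc_eq]
  have h := aux hC (E ⊔ E' : IntermediateField K Ω) E E' (fun F hF1 hF2 => ?_)
  · exact_mod_cast h
  · -- `F` as an intermediate field over `K`
    let F' : IntermediateField K (E ⊔ E' : IntermediateField K Ω) :=
      { F.toSubfield with
        algebraMap_mem' := fun x => hF1 (algebraMap K E x) }
    have hF' : ∀ x, x ∈ F' ↔ x ∈ F := fun _ => Iff.rfl
    have h1 : E ≤ IntermediateField.lift F' := by
      intro x hx
      have h2 : (⟨x, (le_sup_left : E ≤ E ⊔ E') hx⟩ : (E ⊔ E' : IntermediateField K Ω)) ∈ F' :=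
        hF1 ⟨x, hx⟩
      exact (IntermediateField.mem_lift (F := E ⊔ E') (E := F') ⟨x, _⟩).2 h2
    have h2 : E' ≤ IntermediateField.lift F' := by
      intro x hx
      have h2 : (⟨x, (le_sup_right : E' ≤ E ⊔ E') hx⟩ : (E ⊔ E' : IntermediateField K Ω)) ∈ F' :=
        hF2 ⟨x, hx⟩
      exact (IntermediateField.mem_lift (F := E ⊔ E') (E := F') ⟨x, _⟩).2 h2
    have h3 := sup_le h1 h2
    rw [eq_top_iff]
    intro x _
    have h4 : (x : Ω) ∈ IntermediateField.lift F' := h3 x.2
    exact (IntermediateField.mem_lift x).1 h4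

end Pool.Agent.D0H18.MX
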